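import Mathlib
import Pool.Agent.Work.MP_28bf97_an.Space

set_option autoImplicit false

/-!
Unimodular eigenvectors and uniformly recurrent vectors: a bounded operator on a separable complex
Banach space which has no eigenvector with unimodular eigenvalue although its uniformly recurrent
vectors are dense.
-/

open Topology

universe u

namespace Pool.Agent.Results.MP_28bf97_an.NoUnimodularEigenvectors

/-- The return set: the `n ≥ 1` for which the `n`-th iterate of `x` lies in `U`. -/
def returnSet {X : Type u} [NormedAddCommGroup X] [NormedSpace ℂ X] (T : X →L[ℂ] X) (x : X)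
    (U : Set X) : Set ℕ :=
  {n | 1 ≤ n ∧ (T ^ n) x ∈ U}

/-- `N` has bounded gaps: for some `m` it meets every interval `[n, n + m]`. -/
def HasBoundedGaps (N : Set ℕ) : Prop :=
  ∃ m : ℕ, ∀ n : ℕ, (N ∩ Set.Icc n (n + m)).Nonempty

/-- The set of uniformly recurrent vectors of `T`: for every neighbourhood `U` of `x` the return
set has bounded gaps. -/
def URec {X : Type u} [NormedAddCommGroup X] [NormedSpace ℂ X] (T : X →L[ℂ] X) : Set X :=
  {x | ∀ U ∈ 𝓝 x, HasBoundedGaps (returnSet T x U)}

/-- The eigenvectors of `T` with unimodular eigenvalue: the nonzero `x` with `T x = c x` for some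
`c` with `|c| = 1`. -/
def unimodularEigenvectors {X : Type u} [NormedAddCommGroup X] [NormedSpace ℂ X]
    (T : X →L[ℂ] X) : Set X :=
  {x | x ≠ 0 ∧ ∃ c : ℂ, ‖c‖ = 1 ∧ T x = c • x}

section General

variable {Z : Type u} [NormedAddCommGroup Z] [NormedSpace ℂ Z]

/-- Everything that commutes with `R` maps a vector with syndetic returns to a uniformly recurrent
one. -/
theorem mem_URec_of_commute (R A : Z →L[ℂ] Z) (v : Z) (hA : ∀ z, A (R z) = R (A z))
    (hv : ∀ ε : ℝ, 0 < ε → ∃ m : ℕ, ∀ k : ℕ, ∃ n : ℕ, k < n ∧ n ≤ k + m ∧ ‖(R ^ n) v - v‖ < ε) :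
    A v ∈ URec R := by
  intro U hU
  obtain ⟨ε, hε, hball⟩ := Metric.mem_nhds_iff.mp hU
  obtain ⟨m, hm⟩ := hv (ε / (‖A‖ + 1)) (by positivity)
  refine ⟨m, fun n => ?_⟩
  obtain ⟨j, hj1, hj2, hj3⟩ := hm n
  refine ⟨j, ⟨by omega, ?_⟩, Set.mem_Icc.mpr ⟨hj1.le, hj2⟩⟩
  apply hball
  rw [Metric.mem_ball, dist_eq_norm]
  have hpow : ∀ i : ℕ, ∀ z, A ((R ^ i) z) = (R ^ i) (A z) := by
    intro i
    induction i with
    | zero => intro z; simp
    | succ i ih =>
      intro z
      rw [pow_succ]
      change A ((R ^ i) (R z)) = (R ^ i) (R (A z))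
      rw [ih, hA]
  have e : (R ^ j) (A v) - A v = A ((R ^ j) v - v) := by
    rw [map_sub, hpow]
  rw [e]
  have hpos : 0 < ‖A‖ + 1 := by positivity
  calc ‖A ((R ^ j) v - v)‖ ≤ ‖A‖ * ‖(R ^ j) v - v‖ := A.le_opNorm _
    _ ≤ (‖A‖ + 1) * ‖(R ^ j) v - v‖ := by gcongr; linarith
    _ < (‖A‖ + 1) * (ε / (‖A‖ + 1)) := by gcongr
    _ = ε := by field_simp

/-- Restriction to the closed span of the orbit. -/
theorem exists_cyclic [CompleteSpace Z] (R : Z →L[ℂ] Z) (v : Z) (hv0 : v ≠ 0)
    (hv : ∀ ε : ℝ, 0 < ε → ∃ m : ℕ, ∀ k : ℕ, ∃ n : ℕ, k < n ∧ n ≤ k + m ∧ ‖(R ^ n) v - v‖ < ε)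
    (hno : ∀ (z : Z) (c : ℂ), ‖c‖ = 1 → R z = c • z → z = 0) :
    ∃ (X : Type u) (_ : NormedAddCommGroup X) (_ : NormedSpace ℂ X) (T : X →L[ℂ] X),
      CompleteSpace X ∧ TopologicalSpace.SeparableSpace X ∧ Nontrivial X ∧
      unimodularEigenvectors T = ∅ ∧ closure (URec T) = Set.univ ∧
      ∃ x ∈ URec T, closure ((Submodule.span ℂ (Set.range fun n : ℕ => (T ^ n) x) :
        Submodule ℂ X) : Set X) = Set.univ := by
  set P : Submodule ℂ Z := Submodule.span ℂ (Set.range fun k : ℕ => (R ^ k) v) with hP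
  set M : Submodule ℂ Z := P.topologicalClosure with hM
  have hPM : P ≤ M := Submodule.le_topologicalClosure P
  have hRP : ∀ z ∈ P, R z ∈ P := by
    intro z hz
    rw [hP] at hz
    induction hz using Submodule.span_induction with
    | mem z hz =>
      obtain ⟨k, rfl⟩ := hz
      apply Submodule.subset_span
      refine ⟨k + 1, ?_⟩
      change (R ^ (k + 1)) v = R ((R ^ k) v)
      rw [pow_succ']
      rfl
    | zero => simp
    | add a b _ _ ha hb => rw [map_add]; exact P.add_mem ha hb
    | smul c a _ ha => rw [map_smul]; exact P.smul_mem c ha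
  have hRM : ∀ z ∈ M, R z ∈ M := by
    intro z hz
    have hz' : z ∈ closure (P : Set Z) := hz
    have : R z ∈ closure (P : Set Z) :=
      map_mem_closure R.continuous hz' (fun y hy => hRP y hy)
    exact this
  have hMcl : IsClosed (M : Set Z) := P.isClosed_topologicalClosure
  have hvM : v ∈ M := hPM (Submodule.subset_span ⟨0, by simp⟩)
  let S : M →L[ℂ] M := (R.comp M.subtypeL).codRestrict M (fun z => hRM z z.2)
  have hS : ∀ z : M, ((S z : M) : Z) = R (z : Z) := fun z => rfl
  have hSp : ∀ (n : ℕ) (z : M), (((S ^ n) z : M) : Z) = (R ^ n) (z : Z) := by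
    intro n
    induction n with
    | zero => intro z; simp
    | succ n ih =>
      intro z
      rw [pow_succ, pow_succ]
      change (((S ^ n) (S z) : M) : Z) = (R ^ n) (R z)
      rw [ih, hS]
  let w : M := ⟨v, hvM⟩
  have hw : ∀ ε : ℝ, 0 < ε → ∃ m : ℕ, ∀ k : ℕ, ∃ n : ℕ, k < n ∧ n ≤ k + m ∧
      ‖(S ^ n) w - w‖ < ε := by
    intro ε hε
    obtain ⟨m, hm⟩ := hv ε hε
    refine ⟨m, fun k => ?_⟩
    obtain ⟨n, h1, h2, h3⟩ := hm k
    refine ⟨n, h1, h2, ?_⟩
    have : ‖(S ^ n) w - w‖ = ‖(R ^ n) v - v‖ := by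
      change ‖(((S ^ n) w - w : M) : Z)‖ = _
      rw [Submodule.coe_sub, hSp]
    rw [this]
    exact h3
  set Q : Submodule ℂ M := Submodule.span ℂ (Set.range fun n : ℕ => (S ^ n) w) with hQ
  have hQP : (Subtype.val '' (Q : Set M) : Set Z) = (P : Set Z) := by
    have h1 : Q.map M.subtype = P := by
      rw [hQ, Submodule.map_span, hP]
      congr 1
      ext z
      constructor
      · rintro ⟨_, ⟨n, rfl⟩, rfl⟩
        exact ⟨n, (hSp n w).symm⟩
      · rintro ⟨n, rfl⟩
        exact ⟨(S ^ n) w, ⟨n, rfl⟩, hSp n w⟩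
    rw [← h1]
    rfl
  have hdense : closure (Q : Set M) = Set.univ := by
    rw [Set.eq_univ_iff_forall]
    intro z
    rw [closure_subtype, hQP]
    exact z.2
  have hQU : (Q : Set M) ⊆ URec S := by
    intro z hz
    have : ∃ A : M →L[ℂ] M, (∀ y, A (S y) = S (A y)) ∧ A w = z := by
      change z ∈ Q at hz
      rw [hQ] at hz
      induction hz using Submodule.span_induction with
      | mem z hz =>
        obtain ⟨k, rfl⟩ := hz
        refine ⟨S ^ k, fun y => ?_, rfl⟩
        change ((S ^ k) * S) y = (S * (S ^ k)) y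
        rw [← pow_succ, ← pow_succ']
      | zero => exact ⟨0, fun y => by simp, by simp⟩
      | add a b _ _ ha hb =>
        obtain ⟨A, hA1, hA2⟩ := ha
        obtain ⟨B, hB1, hB2⟩ := hb
        refine ⟨A + B, fun y => ?_, ?_⟩
        · simp only [add_apply, hA1, hB1, map_add]
        · simp only [add_apply, hA2, hB2]
      | smul c a _ ha =>
        obtain ⟨A, hA1, hA2⟩ := ha
        refine ⟨c • A, fun y => ?_, ?_⟩
        · simp only [smul_apply, hA1, map_smul]
        · simp only [smul_apply, hA2]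
    obtain ⟨A, hA1, hA2⟩ := this
    rw [← hA2]
    exact mem_URec_of_commute S A w hA1 hw
  refine ⟨M, inferInstance, inferInstance, S, hMcl.completeSpace_coe, ?_, ?_, ?_, ?_, w, ?_, hdense⟩
  · have h1 : TopologicalSpace.IsSeparable (P : Set Z) := by
      rw [hP]
      exact (Set.countable_range _).isSeparable.span
    have h2 : TopologicalSpace.IsSeparable (M : Set Z) := by
      have : (M : Set Z) = closure (P : Set Z) := rfl
      rw [this]
      exact h1.closure
    exact h2.separableSpace
  · refine ⟨⟨w, 0, fun h => hv0 ?_⟩⟩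
    exact congrArg Subtype.val h
  · rw [Set.eq_empty_iff_forall_notMem]
    rintro z ⟨hz0, c, hc, hz⟩
    apply hz0
    apply Subtype.ext
    apply hno (z : Z) c hc
    rw [← hS, hz]
    rfl
  · rw [Set.eq_univ_iff_forall]
    intro z
    have : z ∈ closure (Q : Set M) := by rw [hdense]; trivial
    exact closure_mono hQU this
  · exact hQU (Submodule.subset_span ⟨0, by simp⟩)

end General

/-- **Full negative answer.** In every universe there are a complex Banach space `X`, separable and
nonzero, and a bounded operator `T` on `X` without any eigenvector with unimodular eigenvalue, so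
that the closed span of these eigenvectors is `0`, whereas the uniformly recurrent vectors of `T`
are dense in `X`; moreover some uniformly recurrent vector is cyclic for `T`. In particular it is
not true that the closed span of the unimodular eigenvectors equals the closure of the set of
uniformly recurrent vectors for all bounded operators on complex Banach spaces. -/
theorem result :
    (∃ (X : Type u) (_ : NormedAddCommGroup X) (_ : NormedSpace ℂ X) (T : X →L[ℂ] X),
      CompleteSpace X ∧ TopologicalSpace.SeparableSpace X ∧ Nontrivial X ∧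
      unimodularEigenvectors T = ∅ ∧
      closure ((Submodule.span ℂ (unimodularEigenvectors T) : Submodule ℂ X) : Set X) = {0} ∧
      closure (URec T) = Set.univ ∧
      ∃ x ∈ URec T, closure ((Submodule.span ℂ (Set.range fun n : ℕ => (T ^ n) x) :
        Submodule ℂ X) : Set X) = Set.univ) ∧
    ¬ ∀ (X : Type u) [NormedAddCommGroup X] [NormedSpace ℂ X] [CompleteSpace X] (T : X →L[ℂ] X),
      closure ((Submodule.span ℂ (unimodularEigenvectors T) : Submodule ℂ X) : Set X) =
        closure (URec T) := by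
  have key : ∃ (X : Type u) (_ : NormedAddCommGroup X) (_ : NormedSpace ℂ X) (T : X →L[ℂ] X),
      CompleteSpace X ∧ TopologicalSpace.SeparableSpace X ∧ Nontrivial X ∧
      unimodularEigenvectors T = ∅ ∧ closure (URec T) = Set.univ ∧
      ∃ x ∈ URec T, closure ((Submodule.span ℂ (Set.range fun n : ℕ => (T ^ n) x) :
        Submodule ℂ X) : Set X) = Set.univ := by
    let e : ULift.{u} Work.MP_28bf97_an.X ≃ₗᵢ[ℂ] Work.MP_28bf97_an.X :=
      LinearIsometryEquiv.ulift ℂ Work.MP_28bf97_an.X
    have hc : CompleteSpace (ULift.{u} Work.MP_28bf97_an.X) := e.toIsometryEquiv.completeSpace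
    let R : ULift.{u} Work.MP_28bf97_an.X →L[ℂ] ULift.{u} Work.MP_28bf97_an.X :=
      (e.symm.toContinuousLinearEquiv : Work.MP_28bf97_an.X →L[ℂ] ULift.{u} Work.MP_28bf97_an.X).comp
        (Work.MP_28bf97_an.T.comp
          (e.toContinuousLinearEquiv : ULift.{u} Work.MP_28bf97_an.X →L[ℂ] Work.MP_28bf97_an.X))
    have hR : ∀ z, e (R z) = Work.MP_28bf97_an.T (e z) := fun z => e.apply_symm_apply _
    have hRp : ∀ (n : ℕ) z, e ((R ^ n) z) = (Work.MP_28bf97_an.T ^ n) (e z) := by
      intro n
      induction n with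
      | zero => intro z; simp
      | succ n ih =>
        intro z
        rw [pow_succ, pow_succ]
        change e ((R ^ n) (R z)) = (Work.MP_28bf97_an.T ^ n) (Work.MP_28bf97_an.T (e z))
        rw [ih, hR]
    refine exists_cyclic R (e.symm Work.MP_28bf97_an.v0) ?_ ?_ ?_
    · intro h
      apply Work.MP_28bf97_an.v0_ne
      have := congrArg e h
      rwa [e.apply_symm_apply, map_zero] at this
    · intro ε hε
      obtain ⟨m, hm⟩ := Work.MP_28bf97_an.urec ε hε
      refine ⟨m, fun k => ?_⟩
      obtain ⟨n, h1, h2, h3⟩ := hm k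
      refine ⟨n, h1, h2, ?_⟩
      rw [← e.norm_map, map_sub, hRp, e.apply_symm_apply]
      exact h3
    · intro z c hcn hz
      have h1 : Work.MP_28bf97_an.T (e z) = c • e z := by
        rw [← hR, hz, map_smul]
      have h2 := Work.MP_28bf97_an.no_eig (e z) c hcn h1
      have := congrArg e.symm h2
      rwa [e.symm_apply_apply, map_zero] at this
  obtain ⟨X, i1, i2, T, hc, hs, hn, hE, hU, hx⟩ := key
  have h0 : closure ((Submodule.span ℂ (unimodularEigenvectors T) : Submodule ℂ X) : Set X) =
      {0} := by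
    rw [hE, Submodule.span_empty, Submodule.bot_coe, closure_singleton]
  refine ⟨⟨X, i1, i2, T, hc, hs, hn, hE, h0, hU, hx⟩, fun h => ?_⟩
  have h1 := h X T
  rw [h0, hU] at h1
  obtain ⟨y, hy⟩ := exists_ne (0 : X)
  have : y ∈ ({0} : Set X) := by rw [h1]; trivial
  exact hy this

end Pool.Agent.Results.MP_28bf97_an.NoUnimodularEigenvectors
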